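import Pool.Agent.X330.SZ.Count
import Pool.Agent.X330.SZ.Degree

/-!
# MP_a053e2_nt, Q1: the sublinear projective Schwartz-Zippel bound

A reduced closed subscheme `X` of `ℙ^n` over `ℚ` is given by its homogeneous radical ideal `I` in
`ℚ[x_0, …, x_n]`; its irreducible components are the zero sets of the minimal primes `P` of `I`,
the component of `P` has dimension `dim (ℚ[x_0, …, x_n] / P) - 1`, and its degree is
`(deg H_P)! * (leading coefficient of H_P)` with `H_P` the Hilbert polynomial.
-/

set_option autoImplicit false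

open MvPolynomial Filter

namespace Pool.Agent.Results.MP_a053e2_nt.SchwartzZippel

/-- The homogeneous coordinate ring `ℚ[x_0, …, x_n]` of `ℙ^n`. -/
abbrev R (n : ℕ) := MvPolynomial (Fin (n + 1)) ℚ

/-- A homogeneous ideal: it contains the homogeneous components of its elements. -/
def IsHomogeneousIdeal {n : ℕ} (I : Ideal (R n)) : Prop :=
  ∀ f ∈ I, ∀ m : ℕ, homogeneousComponent m f ∈ I

/-- The Hilbert function of `R/I`: the dimension of the image in `R/I` of the space of forms of
degree `m`. -/
noncomputable def hilbertFunction {n : ℕ} (I : Ideal (R n)) (m : ℕ) : ℕ :=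
  Module.finrank ℚ ((homogeneousSubmodule (Fin (n + 1)) ℚ m).map
    (Ideal.Quotient.mkₐ ℚ I).toLinearMap)

/-- The Hilbert polynomial exists. -/
theorem exists_hilbertPolynomial {n : ℕ} (I : Ideal (R n)) :
    ∃ Q : Polynomial ℚ, ∀ᶠ m : ℕ in atTop, (hilbertFunction I m : ℚ) = Q.eval (m : ℚ) :=
  Pool.Agent.X330.SZ.exists_hilbPoly I

/-- The Hilbert polynomial of `R/I`: the polynomial which agrees with the Hilbert function for all
large `m` (it exists by the theorem above, and it is clearly unique). -/
noncomputable def hilbertPolynomial {n : ℕ} (I : Ideal (R n)) : Polynomial ℚ :=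
  (exists_hilbertPolynomial I).choose

/-- The degree of the closed subscheme of `ℙ^n` defined by `I`: the factorial of the degree of the
Hilbert polynomial times its leading coefficient. -/
noncomputable def degree {n : ℕ} (I : Ideal (R n)) : ℚ :=
  ((hilbertPolynomial I).natDegree.factorial : ℚ) * (hilbertPolynomial I).leadingCoeff

/-- `I` is the ideal of a reduced closed subscheme `X` of `ℙ^n` of pure dimension `k`: it is
homogeneous and radical, and `R/P` has Krull dimension `k + 1` for every minimal prime `P` of `I`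
(that is, every irreducible component of `X` has dimension `k`). -/
structure IsVariety {n : ℕ} (k : ℕ) (I : Ideal (R n)) : Prop where
  homogeneous : IsHomogeneousIdeal I
  radical : I.IsRadical
  pure : ∀ P ∈ I.minimalPrimes, ringKrullDim (R n ⧸ P) = (k : WithBot ℕ∞) + 1

/-- The degree of `X`: the sum of the degrees of its irreducible components. -/
noncomputable def totalDegree {n : ℕ} (I : Ideal (R n)) : ℚ :=
  ∑ᶠ P ∈ I.minimalPrimes, degree P

/-- `X(ℚ, B)`: the points of `ℙ^n(ℚ)` on `X` which have homogeneous integer coordinates of absolute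
value at most `B`. -/
def points {n : ℕ} (I : Ideal (R n)) (B : ℝ) : Set (Projectivization ℚ (Fin (n + 1) → ℚ)) :=
  {x | ∃ z : Fin (n + 1) → ℤ, ∃ hz : (fun j => (z j : ℚ)) ≠ 0,
    x = Projectivization.mk ℚ (fun j => (z j : ℚ)) hz ∧ (∀ j, |(z j : ℝ)| ≤ B) ∧
      ∀ f ∈ I, eval (fun j => (z j : ℚ)) f = 0}

open Pool.Agent.X330.SZ in
/-- **The sublinear projective Schwartz-Zippel bound.** -/
theorem result : ∀ n : ℕ, 1 ≤ n → ∀ k : ℕ, k ≤ n → ∃ c : ℝ, 0 < c ∧
    ∀ I : Ideal (R n), IsVariety k I → ∀ B : ℝ, 1 ≤ B →
      (points I B).Finite ∧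
      ((points I B).ncard : ℝ) ≤
        c * ((totalDegree I : ℚ) : ℝ) ^ ((n : ℝ) / (n + 1)) * B ^ (k + 1) := by
  classical
  intro n hn k hk
  obtain ⟨s, hs⟩ := Nat.exists_eq_add_of_le hk
  obtain ⟨C, hC, hsiegel⟩ := siegel n
  have hKn := Kc_pos n n
  have hKk := Kc_pos n k
  refine ⟨(2 * n.factorial * Kc n n + 2 * Kc n k) * C ^ (k + 1), by positivity, ?_⟩
  intro I hI B hB
  -- representatives
  have hrep : ∀ x : points I B, ∃ z : Fin (n + 1) → ℤ, ∃ hz : (fun j => (z j : ℚ)) ≠ 0,
      x.1 = Projectivization.mk ℚ (fun j => (z j : ℚ)) hz ∧ (∀ j, |(z j : ℝ)| ≤ B) ∧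
        ∀ f ∈ I, eval (fun j => (z j : ℚ)) f = 0 := fun x => x.2
  choose z hz hxz hzB hzI using hrep
  have hz0 : ∀ x, z x ≠ 0 := by
    intro x h
    apply hz x
    funext j
    rw [h]
    simp
  -- finiteness
  have hfin : Finite (points I B) := by
    have h1 : {v : Fin (n + 1) → ℤ | ∀ j, |(v j : ℝ)| ≤ B}.Finite := by
      refine (Set.finite_Icc (fun _ : Fin (n + 1) => -⌈B⌉) (fun _ => ⌈B⌉)).subset ?_
      intro v hv
      have h3 : B ≤ ⌈B⌉ := Int.le_ceil B
      constructor
      · intro j
        have h2 := (abs_le.1 (hv j)).1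
        have : (-⌈B⌉ : ℝ) ≤ v j := by linarith
        exact_mod_cast this
      · intro j
        have h2 := (abs_le.1 (hv j)).2
        have : (v j : ℝ) ≤ ⌈B⌉ := by linarith
        exact_mod_cast this
    have h2 : Finite {v : Fin (n + 1) → ℤ | ∀ j, |(v j : ℝ)| ≤ B} := h1
    refine Finite.of_injective
      (fun x => (⟨z x, hzB x⟩ : {v : Fin (n + 1) → ℤ | ∀ j, |(v j : ℝ)| ≤ B})) ?_
    intro x y hxy
    have h3 : z x = z y := congrArg Subtype.val hxy
    apply Subtype.ext
    rw [hxz x, hxz y]
    congr 1
    rw [h3]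
  refine ⟨hfin, ?_⟩
  have hfintype : Fintype (points I B) := Fintype.ofFinite _
  -- the data
  choose g E hgli hmono hgorth hgsize hgprod using fun x : points I B => hsiegel (z x) (hz0 x)
  let D : Data n (points I B) :=
    { x := z
      g := fun p i => if h : i < n then g p ⟨i, h⟩ else 0
      E := fun p i => if h : i < n then E p ⟨i, h⟩ else 0
      x_ne := hz0
      sep := by
        intro p q hpq
        have hminor : ∃ i j, z p i * z q j - z p j * z q i ≠ 0 := by
          by_contra hcon
          push Not at hcon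
          apply hpq
          apply Subtype.ext
          rw [hxz p, hxz q, Projectivization.mk_eq_mk_iff']
          obtain ⟨j, hj⟩ := Function.ne_iff.1 (hz0 q)
          have hj' : (z q j : ℚ) ≠ 0 := by exact_mod_cast hj
          refine ⟨(z p j : ℚ) / (z q j : ℚ), ?_⟩
          funext i
          rw [Pi.smul_apply, smul_eq_mul, div_mul_eq_mul_div, div_eq_iff hj']
          have := hcon i j
          have h4 : z p j * z q i = z p i * z q j := by linarith
          exact_mod_cast h4
        obtain ⟨i, j, hij⟩ := hminor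
        refine ⟨Pi.single i (z q j) - Pi.single j (z q i), ?_, ?_⟩
        · rw [map_sub, dot_apply, dot_apply]
          simp only [Pi.single_apply, ite_mul, zero_mul, Finset.sum_ite_eq', Finset.mem_univ,
            if_true]
          intro h
          apply hij
          linarith
        · rw [map_sub, dot_apply, dot_apply]
          simp only [Pi.single_apply, ite_mul, zero_mul, Finset.sum_ite_eq', Finset.mem_univ,
            if_true]
          ring
      li := by
        intro p
        convert hgli p using 1
        funext i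
        simp
      mono := by
        intro p i j hij hj
        rw [dif_pos (lt_of_le_of_lt hij hj), dif_pos hj]
        exact hmono p hij
      orth := by
        intro p i hi
        rw [dif_pos hi]
        exact hgorth p _
      size := by
        intro p i j hi
        simp only [dif_pos hi]
        exact hgsize p _ j }
  have hY : ∀ p, (2 : ℝ) ^ (∑ i ∈ Finset.range n, D.E p i) ≤ C * B := by
    intro p
    have h1 : (2 : ℝ) ^ (∑ i ∈ Finset.range n, D.E p i) = ∏ i : Fin n, (2 : ℝ) ^ E p i := by
      rw [Finset.prod_pow_eq_pow_sum, Finset.sum_range]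
      congr 1
      refine Finset.sum_congr rfl fun i _ => ?_
      show (if h : (i : ℕ) < n then E p ⟨i, h⟩ else 0) = _
      rw [dif_pos i.2]
    rw [h1]
    refine (hgprod p).trans ?_
    have h2 : ‖z p‖ ≤ B := by
      rw [pi_norm_le_iff_of_nonneg (by linarith)]
      intro j
      rw [Int.norm_eq_abs]
      exact hzB p j
    gcongr
  -- components
  have hmpfin : I.minimalPrimes.Finite := Ideal.finite_minimalPrimes_of_isNoetherianRing _ I
  have hcount := main_count (k := k) (s := s) hn hs D (C * B) (by positivity) hY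
    hmpfin.toFinset (by
      intro P hP
      rw [Set.Finite.mem_toFinset] at hP
      have hPp : P.IsPrime := hP.1.1
      refine ⟨hPp, Hom.minimal hI.homogeneous hP, ?_⟩
      have h1 := hI.pure P hP
      rw [krull_trdeg P hPp] at h1
      have h2 : dimQ P = k + 1 := by exact_mod_cast h1
      exact h2.ge) (fun P => ((degree P : ℚ) : ℝ)) (by
      intro P hP ρ hρ hA
      rw [Set.Finite.mem_toFinset] at hP
      have hPp : P.IsPrime := hP.1.1
      have h1 := hI.pure P hP
      rw [krull_trdeg P hPp] at h1
      have h2 : dimQ P = k + 1 := by exact_mod_cast h1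
      obtain ⟨-, h3, -⟩ := degree_spec P hPp (Hom.minimal hI.homogeneous hP) k h2
      obtain ⟨c, hc⟩ := hA
      exact A_le (fun m => (hilb P m : ℝ)) k ρ _ hρ c hc h3) (by
      intro P hP
      rw [Set.Finite.mem_toFinset] at hP
      have hPp : P.IsPrime := hP.1.1
      have h1 := hI.pure P hP
      rw [krull_trdeg P hPp] at h1
      have h2 : dimQ P = k + 1 := by exact_mod_cast h1
      obtain ⟨-, -, h3⟩ := degree_spec P hPp (Hom.minimal hI.homogeneous hP) k h2
      exact h3) Finset.univ (by
      intro p _
      have hker : (RingHom.ker (eval (fun j => (z p j : ℚ)))).IsPrime := RingHom.ker_isPrime _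
      have hle : I ≤ RingHom.ker (eval (fun j => (z p j : ℚ))) := fun f hf => hzI p f hf
      obtain ⟨Z, hZ1, hZ2⟩ := Ideal.exists_minimalPrimes_le hle
      exact ⟨Z, hmpfin.mem_toFinset.2 hZ1, fun f hf => hZ2 hf⟩)
  have hdeg : ((totalDegree I : ℚ) : ℝ) = ∑ P ∈ hmpfin.toFinset, ((degree P : ℚ) : ℝ) := by
    unfold totalDegree
    rw [finsum_mem_eq_finite_toFinset_sum _ hmpfin]
    push_cast
    rfl
  have hcard : (points I B).ncard = (Finset.univ : Finset (points I B)).card := by
    rw [Finset.card_univ, ← Nat.card_eq_fintype_card]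
    rfl
  rw [hcard, hdeg]
  refine hcount.trans (le_of_eq ?_)
  rw [mul_pow]
  ring

end Pool.Agent.Results.MP_a053e2_nt.SchwartzZippel
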